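import Mathlib
import Pool.Agent.R39.RB.Defs
import Pool.Agent.R39.RB.Final

/-! Biclique-free classes with bounded reduced bandwidth have linear expansion. -/

namespace Pool.Agent.Results.MP_f5a5c1_co.LinearExpansion

open Pool.Agent.R39.RB

/-- For some `t` no member of the class contains `K_{t,t}` as a subgraph. -/
def ExcludesBiclique (C : GraphClass) : Prop :=
  ∃ t : ℕ, ∀ G ∈ C, (completeBipartiteGraph (Fin t) (Fin t)).Free G.2

/-- There is a constant `c` such that every `r`-shallow minor `H` of a member of the class has at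
most `c (r + 1) |V(H)|` edges, i.e. `∇_r(G) ≤ c (r + 1)` for all members `G` and all `r`. -/
def HasLinearExpansion (C : GraphClass) : Prop :=
  ∃ c : ℝ, ∀ G ∈ C, ∀ (r m : ℕ) (H : SimpleGraph (Fin m)), IsShallowMinor r G.2 H →
    (H.edgeSet.ncard : ℝ) ≤ c * (r + 1) * m

/-- Every graph class (monotone or not) that excludes a fixed complete bipartite subgraph and has
bounded reduced bandwidth has linear expansion. -/
theorem result (C : GraphClass) (hK : ExcludesBiclique C) (hB : BoundedReducedBandwidth C) :
    HasLinearExpansion C := by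
  obtain ⟨t, ht⟩ := hK
  obtain ⟨k, hk⟩ := hB
  refine ⟨(((2 * k + 5) * (t * (8 * k + 1) + 1) : ℕ) : ℝ), ?_⟩
  intro G hG r m H hH
  have hfree := free_of_bound (ht G hG)
  rw [max_self] at hfree
  have h1 := shallow_bound hfree (hk G hG) hH
  rw [Fintype.card_fin] at h1
  have h2 := h1.trans (Nat.mul_le_mul_right m (const_le k t r))
  exact_mod_cast h2

end Pool.Agent.Results.MP_f5a5c1_co.LinearExpansion
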